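import Mathlib

namespace Pool.Agent.Results.MP_6ffc1e_gt.CollapseToSkeleton

open Finset

/-! ### Definitions used in the statement -/

/-- The Hamming distance of the binary expansions of `x` and `y`: the number of binary digits
in which `x` and `y` differ. -/
noncomputable def binDist (x y : ℕ) : ℕ := {i : ℕ | x.testBit i ≠ y.testBit i}.ncard

theorem binDist_comm (x y : ℕ) : binDist x y = binDist y x := by
  unfold binDist
  congr 1
  ext i
  exact ne_comm

/-- The graph `G_m^r` on `{0, …, m-1}`: distinct `x`, `y` are adjacent iff their Hamming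
distance is at most `r`. -/
def hammingGraph (m r : ℕ) : SimpleGraph (Fin m) where
  Adj x y := x ≠ y ∧ binDist x y ≤ r
  symm := ⟨fun x y h => ⟨h.1.symm, by rw [binDist_comm]; exact h.2⟩⟩
  loopless := ⟨fun _ h => h.1 rfl⟩

/-- The clique complex of a graph: its faces are the nonempty finite cliques. -/
def cliqueComplex {V : Type*} (G : SimpleGraph V) : PreAbstractSimplicialComplex V where
  faces := {s | s.Nonempty ∧ G.IsClique (s : Set V)}
  isRelLowerSet_faces := by
    intro s hs
    exact ⟨hs.1, fun t hts ht => ⟨ht, hs.2.subset (by exact_mod_cast hts)⟩⟩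

/-- `K` collapses to `L` by one elementary collapse: there are faces `σ ⊂ τ` of `K` with
`dim τ = dim σ + 1` such that `τ` is the only face of `K` properly containing `σ`, and the faces
of `L` are the faces of `K` other than `σ` and `τ`. -/
def ElementaryCollapse {V : Type*} (K L : PreAbstractSimplicialComplex V) : Prop :=
  ∃ σ ∈ K, ∃ τ ∈ K, σ ⊂ τ ∧ τ.card = σ.card + 1 ∧ (∀ u ∈ K, σ ⊂ u → u = τ) ∧
    ∀ u, u ∈ L ↔ u ∈ K ∧ u ≠ σ ∧ u ≠ τ

/-- `K` collapses to `L`: there is a finite sequence of elementary collapses from `K` to `L`. -/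
def Collapses {V : Type*} (K L : PreAbstractSimplicialComplex V) : Prop :=
  Relation.ReflTransGen ElementaryCollapse K L

/-! ### Good families -/

section good

variable {V : Type*} [DecidableEq V]

/-- A family of finite sets is `d`-good if successively removing pairs `s ⊂ t` with `|t|=|s|+1`,
`|s| ≥ d` and `t` the only member properly containing `s`, one can reach a family whose members
have at most `d` elements. -/
inductive Good (d : ℕ) : Finset (Finset V) → Prop
  | base {K : Finset (Finset V)} : (∀ s ∈ K, s.card ≤ d) → Good d K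
  | step {K : Finset (Finset V)} {s t : Finset V} : s ∈ K → t ∈ K → s ⊂ t →
      t.card = s.card + 1 → d ≤ s.card → (∀ u ∈ K, s ⊂ u → u = t) →
      Good d ((K.erase s).erase t) → Good d K

theorem Good.congr {d : ℕ} {K K' : Finset (Finset V)} (h : Good d K) (e : K = K') : Good d K' :=
  e ▸ h

/-- Gluing, base case. -/
theorem good_union_of_card {d : ℕ} {v : V} {A B : Finset (Finset V)}
    (hA : ∀ s ∈ A, s.card ≤ d) (hAv : ∀ s ∈ A, v ∈ s) (hB : Good d B) (hBv : ∀ s ∈ B, v ∉ s) :
    Good d (A ∪ B) := by
  induction hB with
  | base h =>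
    refine Good.base ?_
    intro s hs
    rcases Finset.mem_union.1 hs with h1 | h1
    · exact hA s h1
    · exact h s h1
  | @step K s t hs ht hst hcard hd huniq _ ih =>
    have hsA : s ∉ A := fun h => hBv s hs (hAv s h)
    have htA : t ∉ A := fun h => hBv t ht (hAv t h)
    refine Good.step (Finset.mem_union_right _ hs) (Finset.mem_union_right _ ht) hst hcard hd ?_ ?_
    · intro u hu hsu
      rcases Finset.mem_union.1 hu with h1 | h1
      · exfalso
        have := hA u h1
        have := Finset.card_lt_card hsu
        omega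
      · exact huniq u h1 hsu
    · have := ih (fun u hu => hBv u (Finset.mem_of_mem_erase (Finset.mem_of_mem_erase hu)))
      refine this.congr ?_
      ext u
      simp only [Finset.mem_union, Finset.mem_erase]
      constructor
      · rintro (h | ⟨h1, h2, h3⟩)
        · exact ⟨fun e => htA (e ▸ h), fun e => hsA (e ▸ h), Or.inl h⟩
        · exact ⟨h1, h2, Or.inr h3⟩
      · rintro ⟨h1, h2, h | h⟩
        · exact Or.inl h
        · exact Or.inr ⟨h1, h2, h⟩

/-- Gluing: the members containing `v` are `insert v s` for `s ∈ L`, the others form `B`. -/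
theorem good_glue {d : ℕ} {v : V} {L B : Finset (Finset V)} (hL : Good d L)
    (hLv : ∀ s ∈ L, v ∉ s) (hB : Good (d + 1) B) (hBv : ∀ s ∈ B, v ∉ s) :
    Good (d + 1) (L.image (insert v) ∪ B) := by
  induction hL with
  | @base K h =>
    refine good_union_of_card (v := v) ?_ ?_ hB hBv
    · intro s hs
      obtain ⟨u, hu, rfl⟩ := Finset.mem_image.1 hs
      rw [Finset.card_insert_of_notMem (hLv u hu)]
      have := h u hu
      omega
    · intro s hs
      obtain ⟨u, hu, rfl⟩ := Finset.mem_image.1 hs
      exact Finset.mem_insert_self _ _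
  | @step K s t hs ht hst hcard hd huniq _ ih =>
    have hvs := hLv s hs
    have hvt := hLv t ht
    have inj : ∀ u ∈ K, ∀ w ∈ K, insert v u = insert v w → u = w := by
      intro u hu w hw e
      have := congrArg (fun x => Finset.erase x v) e
      simpa [Finset.erase_insert (hLv u hu), Finset.erase_insert (hLv w hw)] using this
    have hst' : insert v s ⊂ insert v t := by
      rw [Finset.ssubset_iff_subset_ne]
      refine ⟨Finset.insert_subset_insert _ hst.subset, fun e => hst.ne (inj s hs t ht e)⟩
    refine Good.step (s := insert v s) (t := insert v t) ?_ ?_ hst' ?_ ?_ ?_ ?_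
    · exact Finset.mem_union_left _ (Finset.mem_image_of_mem _ hs)
    · exact Finset.mem_union_left _ (Finset.mem_image_of_mem _ ht)
    · rw [Finset.card_insert_of_notMem hvs, Finset.card_insert_of_notMem hvt, hcard]
    · rw [Finset.card_insert_of_notMem hvs]
      omega
    · intro u hu hsu
      have hvu : v ∈ u := hsu.subset (Finset.mem_insert_self _ _)
      rcases Finset.mem_union.1 hu with h1 | h1
      · obtain ⟨w, hw, rfl⟩ := Finset.mem_image.1 h1
        have : s ⊂ w := by
          rw [Finset.ssubset_iff_subset_ne]
          refine ⟨?_, fun e => hsu.ne (by rw [e])⟩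
          intro x hx
          have := hsu.subset (Finset.mem_insert_of_mem hx)
          rcases Finset.mem_insert.1 this with h2 | h2
          · exact absurd (h2 ▸ hx) hvs
          · exact h2
        rw [huniq w hw this]
      · exact absurd hvu (hBv u h1)
    · have := ih (fun u hu => hLv u (Finset.mem_of_mem_erase (Finset.mem_of_mem_erase hu)))
      refine this.congr ?_
      ext u
      simp only [Finset.mem_union, Finset.mem_erase, Finset.mem_image]
      constructor
      · rintro (⟨w, ⟨h1, h2, h3⟩, rfl⟩ | h)
        · exact ⟨fun e => h1 (inj w h3 t ht e), fun e => h2 (inj w h3 s hs e), Or.inl ⟨w, h3, rfl⟩⟩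
        · refine ⟨fun e => ?_, fun e => ?_, Or.inr h⟩
          · exact hBv u h (e ▸ Finset.mem_insert_self _ _)
          · exact hBv u h (e ▸ Finset.mem_insert_self _ _)
      · rintro ⟨h1, h2, ⟨w, hw, rfl⟩ | h⟩
        · exact Or.inl ⟨w, ⟨fun e => h1 (by rw [e]), fun e => h2 (by rw [e]), hw⟩, rfl⟩
        · exact Or.inr h

/-- Cones are good for every `d`. -/
theorem good_cone (d : ℕ) {v : V} : ∀ (n : ℕ) (L : Finset (Finset V)), L.card = n →
    (∀ s ∈ L, v ∉ s) → Good d (L.image (insert v) ∪ L) := by
  intro n
  induction n with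
  | zero =>
    intro L hL _
    rw [Finset.card_eq_zero] at hL
    subst hL
    exact Good.base (by simp)
  | succ n ih =>
    intro L hL hLv
    have hne : L.Nonempty := by
      rw [← Finset.card_pos]
      omega
    obtain ⟨s, hs, hmax⟩ := Finset.exists_max_image L Finset.card hne
    have inj : ∀ u ∈ L, ∀ w ∈ L, insert v u = insert v w → u = w := by
      intro u hu w hw e
      have := congrArg (fun x => Finset.erase x v) e
      simpa [Finset.erase_insert (hLv u hu), Finset.erase_insert (hLv w hw)] using this
    have hvs := hLv s hs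
    by_cases hd : d ≤ s.card
    · refine Good.step (s := s) (t := insert v s) (Finset.mem_union_right _ hs)
        (Finset.mem_union_left _ (Finset.mem_image_of_mem _ hs)) (Finset.ssubset_insert hvs)
        (Finset.card_insert_of_notMem hvs) hd ?_ ?_
      · intro u hu hsu
        rcases Finset.mem_union.1 hu with h1 | h1
        · obtain ⟨w, hw, rfl⟩ := Finset.mem_image.1 h1
          have hsw : s ⊆ w := by
            intro x hx
            rcases Finset.mem_insert.1 (hsu.subset hx) with h2 | h2
            · exact absurd (h2 ▸ hx) hvs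
            · exact h2
          rw [Finset.eq_of_subset_of_card_le hsw (hmax w hw)]
        · have := Finset.card_lt_card hsu
          have := hmax u h1
          omega
      · have h1 := ih (L.erase s) (by rw [Finset.card_erase_of_mem hs]; omega)
          (fun u hu => hLv u (Finset.mem_of_mem_erase hu))
        refine h1.congr ?_
        ext u
        simp only [Finset.mem_union, Finset.mem_erase, Finset.mem_image]
        constructor
        · rintro (⟨w, ⟨h1, h2⟩, rfl⟩ | ⟨h1, h2⟩)
          · refine ⟨fun e => h1 (inj w h2 s hs e), fun e => hvs (e ▸ Finset.mem_insert_self _ _),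
              Or.inl ⟨w, h2, rfl⟩⟩
          · exact ⟨fun e => hLv u h2 (e ▸ Finset.mem_insert_self _ _), h1, Or.inr h2⟩
        · rintro ⟨h1, h2, ⟨w, hw, rfl⟩ | h⟩
          · exact Or.inl ⟨w, ⟨fun e => h1 (by rw [e]), hw⟩, rfl⟩
          · exact Or.inr ⟨h2, h⟩
    · refine Good.base ?_
      intro u hu
      rcases Finset.mem_union.1 hu with h1 | h1
      · obtain ⟨w, hw, rfl⟩ := Finset.mem_image.1 h1
        rw [Finset.card_insert_of_notMem (hLv w hw)]
        have := hmax w hw
        omega
      · have := hmax u h1
        omega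

/-- The full power set is good for every `d`. -/
theorem good_powerset (d : ℕ) (W : Finset V) : Good d W.powerset := by
  induction W using Finset.induction_on with
  | empty =>
    refine Good.base ?_
    intro s hs
    rw [Finset.powerset_empty, Finset.mem_singleton] at hs
    simp [hs]
  | @insert v W hv ih =>
    have := good_cone d (v := v) _ W.powerset rfl
      (fun s hs hvs => hv (Finset.mem_powerset.1 hs hvs))
    refine this.congr ?_
    rw [Finset.powerset_insert, Finset.union_comm]

end good

/-! ### Skew chains -/

section chains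

variable {V : Type*} [DecidableEq V] (G : SimpleGraph V) [DecidableRel G.Adj]

/-- A skew chain in `W`. -/
def SkewChain (W : Finset V) (l : List (V × V)) : Prop :=
  (∀ p ∈ l, p.1 ∈ W ∧ p.2 ∈ W ∧ p.1 ≠ p.2 ∧ ¬ G.Adj p.1 p.2) ∧
    l.Pairwise (fun p q => G.Adj p.1 q.1 ∧ G.Adj p.1 q.2)

/-- The family of cliques contained in `W` (the empty set included). -/
def cliques (W : Finset V) : Finset (Finset V) :=
  W.powerset.filter (fun s => ∀ x ∈ s, ∀ y ∈ s, x ≠ y → G.Adj x y)

theorem mem_cliques {W s : Finset V} :
    s ∈ cliques G W ↔ s ⊆ W ∧ ∀ x ∈ s, ∀ y ∈ s, x ≠ y → G.Adj x y := by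
  simp [cliques]

theorem good_cliques : ∀ (n : ℕ) (W : Finset V) (d : ℕ), W.card = n →
    (∀ l, SkewChain G W l → l.length ≤ d) → Good d (cliques G W) := by
  intro n
  induction n using Nat.strong_induction_on with
  | _ n ih =>
    intro W d hW hch
    by_cases hcl : ∀ x ∈ W, ∀ y ∈ W, x ≠ y → G.Adj x y
    · refine (good_powerset d W).congr ?_
      ext s
      rw [mem_cliques, Finset.mem_powerset]
      exact ⟨fun h => ⟨h, fun x hx y hy => hcl x (h hx) y (h hy)⟩, fun h => h.1⟩
    · push Not at hcl
      obtain ⟨v, hv, w, hw, hne, hvw⟩ := hcl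
      have h1 : 1 ≤ d := by
        have := hch [(v, w)] ⟨by simp [hv, hw, hne, hvw], by simp⟩
        simpa using this
      obtain ⟨e, rfl⟩ : ∃ e, d = e + 1 := ⟨d - 1, by omega⟩
      -- the link
      have hlink : Good e (cliques G (W.filter (fun x => G.Adj v x))) := by
        refine ih _ ?_ (W.filter (fun x => G.Adj v x)) e rfl ?_
        · rw [← hW]
          refine Finset.card_lt_card ?_
          rw [Finset.ssubset_iff_of_subset (Finset.filter_subset _ _)]
          exact ⟨v, hv, by simp⟩
        · intro l hl
          have := hch ((v, w) :: l) ⟨?_, ?_⟩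
          · simpa using this
          · intro p hp
            rcases List.mem_cons.1 hp with rfl | hp
            · exact ⟨hv, hw, hne, hvw⟩
            · obtain ⟨h1, h2, h3⟩ := hl.1 p hp
              exact ⟨(Finset.mem_filter.1 h1).1, (Finset.mem_filter.1 h2).1, h3⟩
          · rw [List.pairwise_cons]
            refine ⟨?_, hl.2⟩
            intro p hp
            obtain ⟨h1, h2, h3⟩ := hl.1 p hp
            exact ⟨(Finset.mem_filter.1 h1).2, (Finset.mem_filter.1 h2).2⟩
      have hdel : Good (e + 1) (cliques G (W.erase v)) := by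
        refine ih _ ?_ (W.erase v) (e + 1) rfl ?_
        · rw [Finset.card_erase_of_mem hv, hW]
          have : 0 < n := by
            rw [← hW]
            exact Finset.card_pos.2 ⟨v, hv⟩
          omega
        · intro l hl
          refine hch l ⟨fun p hp => ?_, hl.2⟩
          obtain ⟨h1, h2, h3⟩ := hl.1 p hp
          exact ⟨Finset.mem_of_mem_erase h1, Finset.mem_of_mem_erase h2, h3⟩
      have hglue := good_glue (v := v) hlink
        (by
          intro s hs hvs
          have := (mem_cliques G).1 hs
          have := (Finset.mem_filter.1 (this.1 hvs)).2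
          exact G.loopless.irrefl v this) hdel
        (by
          intro s hs hvs
          have := (mem_cliques G).1 hs
          exact Finset.notMem_erase v W (this.1 hvs))
      refine hglue.congr ?_
      ext s
      simp only [Finset.mem_union, Finset.mem_image, mem_cliques]
      constructor
      · rintro (⟨u, ⟨hu1, hu2⟩, rfl⟩ | ⟨h1, h2⟩)
        · refine ⟨?_, ?_⟩
          · intro x hx
            rcases Finset.mem_insert.1 hx with rfl | hx
            · exact hv
            · exact (Finset.mem_filter.1 (hu1 hx)).1
          · intro x hx y hy hxy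
            rcases Finset.mem_insert.1 hx with hx1 | hx1
            · rcases Finset.mem_insert.1 hy with hy1 | hy1
              · exact absurd (hx1.trans hy1.symm) hxy
              · rw [hx1]
                exact (Finset.mem_filter.1 (hu1 hy1)).2
            · rcases Finset.mem_insert.1 hy with hy1 | hy1
              · rw [hy1]
                exact ((Finset.mem_filter.1 (hu1 hx1)).2).symm
              · exact hu2 x hx1 y hy1 hxy
        · exact ⟨h1.trans (Finset.erase_subset _ _), h2⟩
      · rintro ⟨h1, h2⟩
        by_cases hvs : v ∈ s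
        · left
          refine ⟨s.erase v, ⟨?_, ?_⟩, Finset.insert_erase hvs⟩
          · intro x hx
            obtain ⟨hx1, hx2⟩ := Finset.mem_erase.1 hx
            exact Finset.mem_filter.2 ⟨h1 hx2, h2 v hvs x hx2 (Ne.symm hx1)⟩
          · intro x hx y hy
            exact h2 x (Finset.mem_of_mem_erase hx) y (Finset.mem_of_mem_erase hy)
        · right
          refine ⟨?_, h2⟩
          intro x hx
          exact Finset.mem_erase.2 ⟨fun e => hvs (e ▸ hx), h1 hx⟩

end chains

/-! ### From good families to collapses -/

theorem collapses_of_good {V : Type*} [DecidableEq V] {d : ℕ} (hd : 1 ≤ d)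
    {K : Finset (Finset V)} (hK : Good d K) :
    ∀ (P : PreAbstractSimplicialComplex V), (∀ s, s ∈ P ↔ s.Nonempty ∧ s ∈ K) →
    ∃ L : PreAbstractSimplicialComplex V, Collapses P L ∧ (∀ s ∈ L, s.card ≤ d) ∧
      (∀ s ∈ P, s.card < d → s ∈ L) := by
  induction hK with
  | @base K h =>
    intro P hP
    exact ⟨P, Relation.ReflTransGen.refl, fun s hs => h s ((hP s).1 hs).2, fun s hs _ => hs⟩
  | @step K s t hs ht hst hcard hdle huniq _ ih =>
    intro P hP
    have hsn : s.Nonempty := by
      rw [← Finset.card_pos]
      omega
    have htn : t.Nonempty := hsn.mono hst.subset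
    have hlow : IsRelLowerSet {u : Finset V | u ∈ P ∧ u ≠ s ∧ u ≠ t} Finset.Nonempty := by
      rintro u ⟨hu, hus, hut⟩
      have huK := (hP u).1 hu
      refine ⟨huK.1, ?_⟩
      intro w hwu hw
      have hwP : w ∈ P := (P.isRelLowerSet_faces hu).2 hwu hw
      refine ⟨hwP, ?_, ?_⟩
      · rintro rfl
        have : w ⊂ u := Finset.ssubset_iff_subset_ne.2 ⟨hwu, fun e => hus e.symm⟩
        exact hut (huniq u huK.2 this)
      · rintro rfl
        have : s ⊂ u := lt_of_lt_of_le hst hwu
        exact hut (huniq u huK.2 this)
    let P' : PreAbstractSimplicialComplex V := ⟨_, hlow⟩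
    have hP' : ∀ u, u ∈ P' ↔ u ∈ P ∧ u ≠ s ∧ u ≠ t := fun u => Iff.rfl
    obtain ⟨L, hL1, hL2, hL3⟩ := ih P' (by
      intro u
      rw [hP', hP]
      simp only [Finset.mem_erase]
      tauto)
    refine ⟨L, Relation.ReflTransGen.head ?_ hL1, hL2, ?_⟩
    · refine ⟨s, (hP s).2 ⟨hsn, hs⟩, t, (hP t).2 ⟨htn, ht⟩, hst, hcard, ?_, hP'⟩
      intro u hu hsu
      exact huniq u ((hP u).1 hu).2 hsu
    · intro u hu hud
      refine hL3 u ((hP' u).2 ⟨hu, ?_, ?_⟩) hud
      · rintro rfl
        omega
      · rintro rfl
        omega

/-! ### The algebraic bound -/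

section algebra

open MvPolynomial

variable {ι : Type*} [DecidableEq ι] {k : ℕ} {R : Type*} [CommRing R]

/-- The exponent of the squarefree monomial with support `I`. -/
noncomputable def mon (I : Finset (Fin k)) : Fin k →₀ ℕ := Finsupp.indicator I (fun _ _ => 1)

theorem mon_apply (I : Finset (Fin k)) (i : Fin k) : mon I i = if i ∈ I then 1 else 0 := by
  unfold mon
  rw [Finsupp.indicator_apply]
  split_ifs <;> rfl

theorem mon_support (I : Finset (Fin k)) : (mon I).support = I := by
  ext i
  rw [Finsupp.mem_support_iff, mon_apply]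
  simp

theorem coeff_mon_mul (f g : MvPolynomial (Fin k) R) :
    coeff (mon univ) (f * g) = ∑ I : Finset (Fin k), coeff (mon I) f * coeff (mon Iᶜ) g := by
  classical
  rw [coeff_mul]
  have key : ∀ p ∈ HasAntidiagonal.antidiagonal (mon (univ : Finset (Fin k))),
      mon p.1.support = p.1 ∧ mon p.1.supportᶜ = p.2 := by
    intro p hp
    rw [HasAntidiagonal.mem_antidiagonal] at hp
    have h : ∀ i, p.1 i + p.2 i = 1 := by
      intro i
      have := DFunLike.congr_fun hp i
      rw [mon_apply] at this
      simpa using this
    constructor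
    · ext i
      rw [mon_apply]
      have := h i
      by_cases h0 : p.1 i = 0
      · simp [h0]
      · simp [h0]
        omega
    · ext i
      rw [mon_apply]
      have := h i
      by_cases h0 : p.1 i = 0
      · simp [h0]
        omega
      · simp [h0]
        omega
  refine Finset.sum_bij' (fun p _ => p.1.support) (fun I _ => (mon I, mon Iᶜ)) ?_ ?_ ?_ ?_ ?_
  · intro p hp
    exact Finset.mem_univ _
  · intro I _
    rw [HasAntidiagonal.mem_antidiagonal]
    ext i
    rw [Finsupp.add_apply, mon_apply, mon_apply, mon_apply]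
    by_cases h : i ∈ I <;> simp [h]
  · intro p hp
    obtain ⟨h1, h2⟩ := key p hp
    exact Prod.ext h1 h2
  · intro I _
    exact mon_support I
  · intro p hp
    obtain ⟨h1, h2⟩ := key p hp
    rw [h1, h2]

/-- The linear form attached to a bit `s`. -/
noncomputable def omega (w : Fin k → ι → R) (s : ι) : MvPolynomial (Fin k) R :=
  ∑ i, C (w i s) * X i

/-- The product attached to a set of bits. -/
noncomputable def pp (w : Fin k → ι → R) (a : Finset ι) : MvPolynomial (Fin k) R :=
  ∏ s ∈ a, (1 + omega w s)

omit [DecidableEq ι] in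
theorem top_mul_sq [CharP R 2] (w : Fin k → ι → R) (s : ι) (f : MvPolynomial (Fin k) R) :
    coeff (mon univ) (f * (1 + omega w s) ^ 2) = coeff (mon univ) f := by
  have h1 : (1 + omega w s) ^ 2 = 1 + ∑ i, monomial (Finsupp.single i 2) (w i s ^ 2) := by
    rw [CharTwo.add_sq, one_pow]
    congr 1
    unfold omega
    rw [CharTwo.sum_sq]
    refine Finset.sum_congr rfl fun i _ => ?_
    rw [mul_pow, ← C_pow, C_mul_X_pow_eq_monomial]
  rw [h1, mul_add, mul_one, coeff_add, Finset.mul_sum, coeff_sum]
  rw [Finset.sum_eq_zero, add_zero]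
  intro i _
  rw [coeff_mul_monomial', if_neg]
  intro h
  have := h i
  rw [mon_apply] at this
  simp at this

theorem top_mul_prod_sq [CharP R 2] (w : Fin k → ι → R) (T : Finset ι)
    (f : MvPolynomial (Fin k) R) :
    coeff (mon univ) (f * ∏ s ∈ T, (1 + omega w s) ^ 2) = coeff (mon univ) f := by
  induction T using Finset.induction_on with
  | empty => simp
  | @insert s T hs ih =>
    rw [Finset.prod_insert hs, mul_comm ((1 + omega w s) ^ 2), ← mul_assoc, top_mul_sq, ih]

theorem top_pp_mul [CharP R 2] (w : Fin k → ι → R) (a b : Finset ι) :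
    coeff (mon univ) (pp w a * pp w b) = coeff (mon univ) (pp w (symmDiff a b)) := by
  have h : pp w a * pp w b = pp w (symmDiff a b) * ∏ s ∈ a ∩ b, (1 + omega w s) ^ 2 := by
    unfold pp
    have ha : ∏ s ∈ a, (1 + omega w s) =
        (∏ s ∈ a \ b, (1 + omega w s)) * ∏ s ∈ a ∩ b, (1 + omega w s) := by
      rw [← Finset.prod_union (Finset.disjoint_sdiff_inter a b), Finset.sdiff_union_inter]
    have hb : ∏ s ∈ b, (1 + omega w s) =
        (∏ s ∈ b \ a, (1 + omega w s)) * ∏ s ∈ a ∩ b, (1 + omega w s) := by
      rw [Finset.inter_comm a b, ← Finset.prod_union (Finset.disjoint_sdiff_inter b a),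
        Finset.sdiff_union_inter]
    have hab : ∏ s ∈ symmDiff a b, (1 + omega w s) =
        (∏ s ∈ a \ b, (1 + omega w s)) * ∏ s ∈ b \ a, (1 + omega w s) := by
      rw [← Finset.prod_union disjoint_sdiff_sdiff]
      rfl
    rw [ha, hb, hab, Finset.prod_pow]
    ring
  rw [h, top_mul_prod_sq]

omit [DecidableEq ι] in
theorem top_pp_eq_zero (w : Fin k → ι → R) (c : Finset ι) (hc : c.card < k) :
    coeff (mon univ) (pp w c) = 0 := by
  apply coeff_eq_zero_of_totalDegree_lt
  have h1 : (pp w c).totalDegree ≤ c.card := by
    unfold pp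
    refine (totalDegree_finsetProd _ _).trans ?_
    rw [Finset.card_eq_sum_ones]
    refine Finset.sum_le_sum fun s _ => ?_
    refine (totalDegree_add _ _).trans ?_
    rw [totalDegree_one]
    refine max_le (by omega) ?_
    unfold omega
    refine (totalDegree_finsetSum _ _).trans ?_
    refine Finset.sup_le fun i _ => ?_
    refine (totalDegree_mul _ _).trans ?_
    rw [totalDegree_C, zero_add]
    by_cases h : Nontrivial R
    · rw [totalDegree_X]
    · rw [not_nontrivial_iff_subsingleton] at h
      have : (X i : MvPolynomial (Fin k) R) = 0 := Subsingleton.elim _ _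
      rw [this]
      simp
  have h2 : ∑ i ∈ (mon (univ : Finset (Fin k))).support, mon univ i = k := by
    rw [mon_support]
    simp [mon_apply]
  omega

omit [DecidableEq ι] in
/-- Specialisation of the coefficients. -/
theorem map_pp {S : Type*} [CommRing S] (φ : R →+* S) (w : Fin k → ι → R) (c : Finset ι) :
    MvPolynomial.map φ (pp w c) = pp (fun i s => φ (w i s)) c := by
  unfold pp omega
  simp

theorem top_pp_special (c : Finset ι) (e : Fin k → ι) (he : Function.Injective e)
    (hec : ∀ i, e i ∈ c) :
    coeff (mon univ) (pp (fun i s => if s = e i then (1 : ZMod 2) else 0) c) = 1 := by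
  have h1 : pp (fun i s => if s = e i then (1 : ZMod 2) else 0) c = ∏ i : Fin k, (1 + X i) := by
    unfold pp
    have hsub : univ.image e ⊆ c := by
      intro x hx
      obtain ⟨i, _, rfl⟩ := Finset.mem_image.1 hx
      exact hec i
    rw [← Finset.prod_subset hsub]
    · rw [Finset.prod_image (fun x _ y _ h => he h)]
      refine Finset.prod_congr rfl fun i _ => ?_
      congr 1
      unfold omega
      rw [Finset.sum_eq_single i]
      · simp
      · intro j _ hj
        have : ¬ e i = e j := fun h => hj (he h).symm
        simp [this]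
      · simp
    · intro s _ hs
      have : omega (fun i s => if s = e i then (1 : ZMod 2) else 0) s = 0 := by
        unfold omega
        refine Finset.sum_eq_zero fun i _ => ?_
        have : ¬ s = e i := by
          rintro rfl
          exact hs (Finset.mem_image_of_mem _ (Finset.mem_univ _))
        simp [this]
      rw [this, add_zero]
  rw [h1, Finset.prod_one_add, coeff_sum]
  rw [Finset.sum_eq_single univ]
  · have : (∏ i : Fin k, (X i : MvPolynomial (Fin k) (ZMod 2))) = monomial (mon univ) 1 := by
      rw [monomial_eq]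
      simp [Finsupp.prod, mon_support, mon_apply]
    rw [this, coeff_monomial, if_pos rfl]
  · intro I _ hI
    have : (∏ i ∈ I, (X i : MvPolynomial (Fin k) (ZMod 2))) = monomial (mon I) 1 := by
      rw [monomial_eq]
      simp only [map_one, one_mul, Finsupp.prod, mon_support]
      refine Finset.prod_congr rfl fun i hi => ?_
      rw [mon_apply, if_pos hi, pow_one]
    rw [this, coeff_monomial, if_neg]
    intro h
    apply hI
    rw [← mon_support I, h, mon_support]
  · intro h
    exact absurd (Finset.mem_powerset.2 (Finset.subset_univ _)) h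

/-- The skew two-families theorem for Hamming balls (Alon, Jin, Sudakov). -/
theorem skew_families {M : ℕ} (a b : Fin M → Finset ι)
    (h1 : ∀ i, k ≤ (symmDiff (a i) (b i)).card)
    (h2 : ∀ i j, i < j → (symmDiff (a i) (b j)).card < k) : M ≤ 2 ^ k := by
  classical
  let R := MvPolynomial (Fin k × ι) (ZMod 2)
  let w : Fin k → ι → R := fun i s => X (i, s)
  let F : Finset ι → Finset ι → R := fun c d => coeff (mon univ) (pp w c * pp w d)
  have hF0 : ∀ c d, (symmDiff c d).card < k → F c d = 0 := by
    intro c d h
    show coeff (mon univ) (pp w c * pp w d) = 0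
    rw [top_pp_mul]
    exact top_pp_eq_zero w _ h
  have hF1 : ∀ c d, k ≤ (symmDiff c d).card → F c d ≠ 0 := by
    intro c d h h0
    change coeff (mon univ) (pp w c * pp w d) = 0 at h0
    rw [top_pp_mul] at h0
    obtain ⟨T, hT1, hT2⟩ := Finset.exists_subset_card_eq h
    let e : Fin k ≃ T := (T.equivFinOfCardEq hT2).symm
    let φ : R →+* ZMod 2 := MvPolynomial.eval (fun p : Fin k × ι => if p.2 = e p.1 then 1 else 0)
    have h3 := congrArg φ h0
    rw [← coeff_map, map_pp, map_zero] at h3
    have h4 : (fun (i : Fin k) (s : ι) => φ (w i s)) =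
        fun (i : Fin k) (s : ι) => if s = (e i : ι) then (1 : ZMod 2) else 0 := by
      funext i s
      show MvPolynomial.eval (fun p : Fin k × ι => if p.2 = e p.1 then 1 else 0)
        (X (i, s)) = _
      rw [eval_X]
    rw [h4, top_pp_special _ (fun i => (e i : ι)) (Subtype.val_injective.comp e.injective)
      (fun i => hT1 (e i).2)] at h3
    exact one_ne_zero h3
  let v : Fin M → (Finset (Fin k) → R) := fun j I => coeff (mon Iᶜ) (pp w (b j))
  have hv : LinearIndependent R v := by
    rw [Fintype.linearIndependent_iff]
    intro g hg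
    by_contra hne
    push Not at hne
    obtain ⟨i0, hi0⟩ := hne
    have hex : (univ.filter (fun i => g i ≠ 0)).Nonempty := ⟨i0, by simp [hi0]⟩
    obtain ⟨i, hi, hmin⟩ := Finset.exists_min_image _ (fun i => i) hex
    have hgi : g i ≠ 0 := (Finset.mem_filter.1 hi).2
    have hlt : ∀ j, j < i → g j = 0 := by
      intro j hj
      by_contra h
      exact absurd (hmin j (by simp [h])) (not_le.2 hj)
    have hsum : ∑ j, g j * F (a i) (b j) = 0 := by
      have h5 : ∀ I : Finset (Fin k), ∑ j, g j * coeff (mon Iᶜ) (pp w (b j)) = 0 := by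
        intro I
        have := congrFun hg I
        simpa [v] using this
      calc ∑ j, g j * F (a i) (b j)
          = ∑ j, ∑ I : Finset (Fin k), coeff (mon I) (pp w (a i)) *
              (g j * coeff (mon Iᶜ) (pp w (b j))) := by
            refine Finset.sum_congr rfl fun j _ => ?_
            show g j * coeff (mon univ) (pp w (a i) * pp w (b j)) = _
            rw [coeff_mon_mul, Finset.mul_sum]
            refine Finset.sum_congr rfl fun I _ => ?_
            ring
        _ = ∑ I : Finset (Fin k), coeff (mon I) (pp w (a i)) *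
              ∑ j, g j * coeff (mon Iᶜ) (pp w (b j)) := by
            rw [Finset.sum_comm]
            refine Finset.sum_congr rfl fun I _ => ?_
            rw [Finset.mul_sum]
        _ = 0 := by
            refine Finset.sum_eq_zero fun I _ => ?_
            rw [h5, mul_zero]
    rw [Finset.sum_eq_single i] at hsum
    · rcases mul_eq_zero.1 hsum with h | h
      · exact hgi h
      · exact hF1 _ _ (h1 i) h
    · intro j _ hj
      rcases lt_or_gt_of_ne hj with h | h
      · rw [hlt j h, zero_mul]
      · rw [hF0 _ _ (h2 i j h), mul_zero]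
    · intro h
      exact absurd (Finset.mem_univ _) h
  have := hv.fintype_card_le_finrank
  rw [Module.finrank_fintype_fun_eq_card] at this
  simpa using this

end algebra


/-! ### Skew chains in the Hamming graphs -/

/-- The set of positions of the binary digits `1` of `x`, among the first `m`. -/
def bits (m x : ℕ) : Finset ℕ := (Finset.range m).filter (fun i => x.testBit i = true)

theorem binDist_eq {m x y : ℕ} (hx : x < m) (hy : y < m) :
    binDist x y = (symmDiff (bits m x) (bits m y)).card := by
  unfold binDist
  rw [← Set.ncard_coe_finset]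
  congr 1
  ext i
  have hb : ∀ z, z < m → ¬ i < m → z.testBit i = false := by
    intro z hz hi
    apply Nat.testBit_lt_two_pow
    calc z < m := hz
      _ ≤ i := not_lt.1 hi
      _ ≤ 2 ^ i := Nat.lt_two_pow_self.le
  by_cases hi : i < m
  · simp only [Set.mem_ofPred_eq, Finset.coe_symmDiff, Set.mem_symmDiff, Finset.mem_coe, bits,
      Finset.mem_filter, Finset.mem_range, hi, true_and]
    cases x.testBit i <;> cases y.testBit i <;> simp
  · simp only [Set.mem_ofPred_eq, Finset.coe_symmDiff, Set.mem_symmDiff, Finset.mem_coe, bits,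
      Finset.mem_filter, Finset.mem_range, hi, false_and, hb x hx hi, hb y hy hi]
    simp

theorem skewChain_length (m r : ℕ) (W : Finset (Fin m)) (l : List (Fin m × Fin m))
    (hl : SkewChain (hammingGraph m r) W l) : l.length ≤ 2 ^ r := by
  have hself : ∀ x : ℕ, binDist x x = 0 := by
    intro x
    simp [binDist]
  -- the doubled list
  let big : List (Fin m × Fin m) := l ++ (l.map Prod.swap).reverse
  have hl1 : ∀ p ∈ l, r + 1 ≤ binDist p.1 p.2 := by
    intro p hp
    obtain ⟨_, _, h3, h4⟩ := hl.1 p hp
    by_contra h
    exact h4 ⟨h3, by omega⟩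
  have hbig1 : ∀ p ∈ big, r + 1 ≤ binDist p.1 p.2 := by
    intro p hp
    rcases List.mem_append.1 hp with h | h
    · exact hl1 p h
    · rw [List.mem_reverse, List.mem_map] at h
      obtain ⟨q, hq, rfl⟩ := h
      have := hl1 q hq
      rw [binDist_comm] at this
      exact this
  have hl2 : l.Pairwise (fun p q => binDist p.1 q.2 < r + 1) :=
    hl.2.imp (fun h => by have := h.2.2; omega)
  have hl3 : l.Pairwise (fun p q => binDist p.1 q.1 < r + 1) :=
    hl.2.imp (fun h => by have := h.1.2; omega)
  have hcross : ∀ p ∈ l, ∀ q ∈ l, binDist p.1 q.1 < r + 1 := by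
    intro p hp q hq
    have hsym : Std.Symm (fun p q : Fin m × Fin m => binDist p.1 q.1 < r + 1) := by
      constructor
      intro p q h
      rw [binDist_comm]
      exact h
    exact List.Pairwise.forall_of_forall (by
      intro x _
      rw [hself]
      omega) hl3 hp hq
  have hbig2 : big.Pairwise (fun p q => binDist p.1 q.2 < r + 1) := by
    rw [List.pairwise_append]
    refine ⟨hl2, ?_, ?_⟩
    · rw [List.pairwise_reverse, List.pairwise_map]
      refine hl2.imp ?_
      intro p q h
      show binDist q.2 p.1 < r + 1
      rw [binDist_comm]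
      exact h
    · intro p hp q hq
      rw [List.mem_reverse, List.mem_map] at hq
      obtain ⟨q', hq', rfl⟩ := hq
      exact hcross p hp q' hq'
  have hlen : big.length = 2 * l.length := by
    simp [big]
    omega
  have hpw := List.pairwise_iff_get.1 hbig2
  have := skew_families (k := r + 1) (M := big.length)
    (fun i => bits m (big.get i).1) (fun i => bits m (big.get i).2)
    (by
      intro i
      rw [← binDist_eq (big.get i).1.2 (big.get i).2.2]
      exact hbig1 _ (List.get_mem _ _))
    (by
      intro i j hij
      rw [← binDist_eq (big.get i).1.2 (big.get j).2.2]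
      exact hpw i j hij)
  rw [hlen, pow_succ] at this
  omega

/-- For all `m, r` (in particular all `m, r ≥ 1`) the clique complex of `G_m^r` collapses to a
subcomplex `L` of its `(2^r - 1)`-skeleton (all faces of `L` have at most `2^r` vertices, i.e.
dimension at most `2^r - 1`); moreover `L` contains the whole `(2^r - 2)`-skeleton. -/
theorem result (m r : ℕ) :
    ∃ L : PreAbstractSimplicialComplex (Fin m),
      Collapses (cliqueComplex (hammingGraph m r)) L ∧
      (∀ s ∈ L, s.card ≤ 2 ^ r) ∧
      (∀ s ∈ cliqueComplex (hammingGraph m r), s.card ≤ 2 ^ r - 1 → s ∈ L) := by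
  classical
  have hgood := good_cliques (hammingGraph m r) _ (univ : Finset (Fin m)) (2 ^ r) rfl
    (fun l hl => skewChain_length m r _ l hl)
  have hpos : 1 ≤ 2 ^ r := Nat.one_le_two_pow
  obtain ⟨L, h1, h2, h3⟩ := collapses_of_good hpos hgood (cliqueComplex (hammingGraph m r)) (by
    intro s
    rw [mem_cliques]
    constructor
    · rintro ⟨h1, h2⟩
      exact ⟨h1, Finset.subset_univ _, fun x hx y hy hxy => h2 hx hy hxy⟩
    · rintro ⟨h1, _, h2⟩
      exact ⟨h1, fun x hx y hy hxy => h2 x hx y hy hxy⟩)
  exact ⟨L, h1, h2, fun s hs hc => h3 s hs (by omega)⟩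

end Pool.Agent.Results.MP_6ffc1e_gt.CollapseToSkeleton
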